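import Pool.Agent.H36.Perc.Model

/-!
# Mandelbrot percolation is not minimal for conformal upper box dimension

Question Q1 of `MP_c03e51_gt` has a positive answer: almost surely on `F ≠ ∅`, the conformal
upper box dimension of `F` is strictly less than its upper box dimension.  In fact the drop is
uniform: a single number `q` less than `d + log p / log n` works for almost every sample.

The statuses `ξ w` of the cubes with address `w` (a word in the letters `Fin d → Fin n`, the
letter `a` being the subcube number `a`) are independent Bernoulli variables with parameter `p`.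
-/

open MeasureTheory ProbabilityTheory Set
open scoped ENNReal
open Pool.Agent.H36.Perc

namespace Pool.Agent.Results.MP_c03e51_gt.Q1ConformalDrop

theorem result {d n : ℕ} (hd : 1 ≤ d) (hn : 2 ≤ n) {p : ℝ} (hp : 1 / (n : ℝ) ^ d < p)
    (hp1 : p < 1) {Ω : Type*} [MeasurableSpace Ω] (P : Measure Ω) [IsProbabilityMeasure P]
    (ξ : List (Fin d → Fin n) → Ω → Bool) (hξ : ∀ w, Measurable (ξ w)) (hind : iIndepFun ξ P)
    (hlaw : ∀ w, P {ω | ξ w ω = true} = ENNReal.ofReal p) :
    ∃ q : ℝ, q < d + Real.log p / Real.log n ∧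
      ∀ᵐ ω ∂P, (percSet fun w => ξ w ω).Nonempty →
        conformalUpperBoxDim (percSet fun w => ξ w ω) ≤ (q : EReal) ∧
        (q : EReal) < upperBoxDim (percSet fun w => ξ w ω) := by
  have hn0 : 0 < n := by omega
  have hn' : (0 : ℝ) < n := by exact_mod_cast hn0
  have hn1 : (1 : ℝ) < n := by exact_mod_cast (show 1 < n by omega)
  have hp0 : 0 < p := lt_trans (by positivity) hp
  have hlogn : 0 < Real.log n := Real.log_pos hn1
  set s : ℝ := d + Real.log p / Real.log n with hs
  have hns : (n : ℝ) ^ s = (n : ℝ) ^ d * p := by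
    rw [hs, Real.rpow_add hn', Real.rpow_natCast]
    congr 1
    have := Real.rpow_logb hn' hn1.ne' hp0
    rwa [Real.logb] at this
  have hspos : 0 < s := by
    have h1 : (1 : ℝ) < (n : ℝ) ^ s := by
      rw [hns]
      rw [div_lt_iff₀ (by positivity)] at hp
      linarith
    by_contra hcon
    push Not at hcon
    have := Real.rpow_le_one_of_one_le_of_nonpos hn1.le hcon
    linarith
  have hprob : IsProbabilityMeasure (P.map (ξ [])) :=
    Measure.isProbabilityMeasure_map (hξ []).aemeasurable
  have hnt : P.map (ξ []) {true} = ENNReal.ofReal p := by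
    rw [Measure.map_apply (hξ []) (measurableSet_singleton _)]
    exact hlaw []
  have hnf : P.map (ξ []) {false} ≠ 0 := by
    have hc : ({false} : Set Bool) = {true}ᶜ := by ext b; cases b <;> simp
    rw [hc, prob_compl_eq_one_sub (measurableSet_singleton _), hnt]
    have : ENNReal.ofReal p < 1 := by rw [ENNReal.ofReal_lt_one]; exact hp1
    exact (tsub_pos_of_lt this).ne'
  have hm : (Fintype.card (Fin d → Fin n) : ℝ≥0∞) * P.map (ξ []) {true} =
      ENNReal.ofReal ((n : ℝ) ^ s) := by
    rw [hnt, hns, ENNReal.ofReal_mul (by positivity), Fintype.card_fun, Fintype.card_fin,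
      Fintype.card_fin, ENNReal.ofReal_pow hn'.le, ENNReal.ofReal_natCast]
    push_cast
    rfl
  obtain ⟨q, hq, hae⟩ := main_perc hd hn (P.map (ξ [])) hspos hm
    (by rw [hnt]; simpa using hp0) hnf
  refine ⟨q, hq, ?_⟩
  rw [← law_eq P ξ hξ hind hlaw] at hae
  have hT : Measurable (fun ω (w : List (Fin d → Fin n)) a => ξ (w ++ [a]) ω) := by
    rw [measurable_pi_iff]
    intro w
    rw [measurable_pi_iff]
    intro a
    exact hξ _
  have hae2 := ae_of_ae_map hT.aemeasurable hae
  filter_upwards [hae2] with ω hω hne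
  rw [percSet_eq] at hne ⊢
  obtain ⟨h1, h2⟩ := hω (surv_of_nonempty hne)
  refine ⟨h1, lt_of_lt_of_le ?_ h2⟩
  exact_mod_cast hq

end Pool.Agent.Results.MP_c03e51_gt.Q1ConformalDrop
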