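import Pool.Agent.CD29.Const
import Pool.Agent.H36.Perc.Model

/-!
# The conformal upper box dimension of Mandelbrot percolation is almost surely constant

Question Q2 of `MP_c03e51_gt` has a positive answer: there is a real number `c`, depending only
on `d`, `n` and `p`, such that almost surely on `F ≠ ∅` the conformal upper box dimension of `F`
equals `c`.

The statuses `ξ w` of the cubes with address `w` (a word in the letters `Fin d → Fin n`, the
letter `a` being the subcube number `a`) are independent Bernoulli variables with parameter `p`.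
-/

open MeasureTheory ProbabilityTheory Set
open scoped ENNReal
open Pool.Agent.H36.Perc

namespace Pool.Agent.Results.MP_c03e51_gt.Q2AlmostSureConstant

/-- The Bernoulli law. -/
noncomputable def bern (p : ℝ) : Measure Bool :=
  ENNReal.ofReal p • Measure.dirac true + (1 - ENNReal.ofReal p) • Measure.dirac false

theorem bern_true (p : ℝ) : bern p {true} = ENNReal.ofReal p := by
  simp [bern]

theorem bern_false (p : ℝ) : bern p {false} = 1 - ENNReal.ofReal p := by
  simp [bern]

theorem isProb {p : ℝ} (hp1 : p < 1) : IsProbabilityMeasure (bern p) := by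
  constructor
  have h1 : ENNReal.ofReal p ≤ 1 := by
    rw [← ENNReal.ofReal_one]; exact ENNReal.ofReal_le_ofReal hp1.le
  simp [bern, h1]

theorem perc_congr {A : Type*} [Fintype A] {ν ν' : Measure Bool} [hν : IsProbabilityMeasure ν]
    [hν' : IsProbabilityMeasure ν'] (h : ν = ν') : perc A ν = perc A ν' := by
  subst h; rfl

theorem result {d n : ℕ} (hd : 1 ≤ d) (hn : 2 ≤ n) {p : ℝ} (hp : 1 / (n : ℝ) ^ d < p)
    (hp1 : p < 1) :
    ∃ c : ℝ, ∀ {Ω : Type*} [MeasurableSpace Ω] (P : Measure Ω) [IsProbabilityMeasure P]
      (ξ : List (Fin d → Fin n) → Ω → Bool), (∀ w, Measurable (ξ w)) → iIndepFun ξ P →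
      (∀ w, P {ω | ξ w ω = true} = ENNReal.ofReal p) →
      ∀ᵐ ω ∂P, (percSet fun w => ξ w ω).Nonempty →
        conformalUpperBoxDim (percSet fun w => ξ w ω) = (c : EReal) := by
  have hn0 : 0 < n := by omega
  have hn' : (0 : ℝ) < n := by exact_mod_cast hn0
  have hn1 : (1 : ℝ) < n := by exact_mod_cast (show 1 < n by omega)
  have hp0 : 0 < p := lt_trans (by positivity) hp
  have hlogn : 0 < Real.log n := Real.log_pos hn1
  have hprob0 : IsProbabilityMeasure (bern p) := isProb hp1
  set s : ℝ := d + Real.log p / Real.log n with hs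
  have hns : (n : ℝ) ^ s = (n : ℝ) ^ d * p := by
    rw [hs, Real.rpow_add hn', Real.rpow_natCast]
    congr 1
    have := Real.rpow_logb hn' hn1.ne' hp0
    rwa [Real.logb] at this
  have hspos : 0 < s := by
    have h1 : (1 : ℝ) < (n : ℝ) ^ s := by
      rw [hns]
      rw [div_lt_iff₀ (by positivity)] at hp
      linarith
    by_contra hcon
    push Not at hcon
    have := Real.rpow_le_one_of_one_le_of_nonpos hn1.le hcon
    linarith
  have hm : (Fintype.card (Fin d → Fin n) : ℝ≥0∞) * bern p {true} =
      ENNReal.ofReal ((n : ℝ) ^ s) := by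
    rw [bern_true, hns, ENNReal.ofReal_mul (by positivity), Fintype.card_fun, Fintype.card_fin,
      Fintype.card_fin, ENNReal.ofReal_pow hn'.le, ENNReal.ofReal_natCast]
    push_cast
    rfl
  have hnt : bern p {true} ≠ 0 := by rw [bern_true]; simpa using hp0
  have hnf : bern p {false} ≠ 0 := by
    rw [bern_false]
    have : ENNReal.ofReal p < 1 := by rw [ENNReal.ofReal_lt_one]; exact hp1
    exact (tsub_pos_of_lt this).ne'
  obtain ⟨q, -, hae1⟩ := main_perc hd hn (bern p) hspos hm hnt hnf
  obtain ⟨c, hc0, hae2⟩ := Pool.Agent.CD29.ae_const hd hn (bern p) (pos_iff_ne_zero.2 hnt)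
  -- a real constant for the model law
  have hreal : ∃ c' : ℝ, ∀ᵐ x ∂perc (Fin d → Fin n) (bern p), surv x →
      conformalUpperBoxDim (lim x) = (c' : EReal) := by
    by_cases htop : c = ⊤
    · refine ⟨0, ?_⟩
      filter_upwards [hae1, hae2] with x hx1 hx2 hsv
      exfalso
      have h1 := (hx1 hsv).1
      rw [hx2 hsv, htop, top_le_iff] at h1
      exact EReal.coe_ne_top _ h1
    · have hbot : c ≠ ⊥ := fun h => by
        rw [h] at hc0
        exact absurd (lt_of_lt_of_le (EReal.bot_lt_zero) hc0) (lt_irrefl _)
      refine ⟨c.toReal, ?_⟩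
      rw [EReal.coe_toReal htop hbot]
      exact hae2
  obtain ⟨c', hae⟩ := hreal
  refine ⟨c', ?_⟩
  intro Ω _ P _ ξ hξ hind hlaw
  have hprob : IsProbabilityMeasure (P.map (ξ [])) :=
    Measure.isProbabilityMeasure_map (hξ []).aemeasurable
  have hν : P.map (ξ []) = bern p := by
    have ht : P.map (ξ []) {true} = ENNReal.ofReal p := by
      rw [Measure.map_apply (hξ []) (measurableSet_singleton _)]
      exact hlaw []
    apply Measure.ext_of_singleton
    intro b
    cases b with
    | true => rw [ht, bern_true]
    | false =>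
      have hc : ({false} : Set Bool) = {true}ᶜ := by ext b; cases b <;> simp
      rw [bern_false, hc, prob_compl_eq_one_sub (measurableSet_singleton _), ht]
  rw [← perc_congr hν, ← law_eq P ξ hξ hind hlaw] at hae
  have hT : Measurable (fun ω (w : List (Fin d → Fin n)) a => ξ (w ++ [a]) ω) := by
    rw [measurable_pi_iff]
    intro w
    rw [measurable_pi_iff]
    intro a
    exact hξ _
  have hae3 := ae_of_ae_map hT.aemeasurable hae
  filter_upwards [hae3] with ω hω hne
  rw [percSet_eq] at hne ⊢
  exact hω (surv_of_nonempty hne)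

end Pool.Agent.Results.MP_c03e51_gt.Q2AlmostSureConstant
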